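import Pool.Agent.H37.PT2.Defs

/-! # NRM: `Nq` is a norm, comparison with the `ℓ_1` and `ℓ_2` norms -/

set_option autoImplicit false

open Finset

namespace Pool.PT2

theorem NRM_super {ι : Type} (s : Finset ι) (f : ι → ℝ) (hf : ∀ i, 0 ≤ f i) {p : ℝ}
    (hp : 1 ≤ p) : ∑ i ∈ s, f i ^ p ≤ (∑ i ∈ s, f i) ^ p := by
  classical
  induction s using Finset.induction_on with
  | empty =>
    simp only [Finset.sum_empty]
    exact Real.rpow_nonneg le_rfl _
  | insert a s ha ih =>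
    rw [Finset.sum_insert ha, Finset.sum_insert ha]
    exact (add_le_add le_rfl ih).trans
      (Real.add_rpow_le_rpow_add (hf a) (Finset.sum_nonneg fun i _ => hf i) hp)

theorem NRM_lq_nonneg (q : ℝ) {k : ℕ} (y : Fin k → ℝ) : 0 ≤ lq q y := by
  unfold lq
  exact Real.rpow_nonneg (Finset.sum_nonneg fun i _ => Real.rpow_nonneg (abs_nonneg _) _) _

theorem NRM_root {q S T : ℝ} (hq : 0 < q) (hS : 0 ≤ S) (hT : 0 ≤ T) (h : S ≤ T ^ q) :
    S ^ (1 / q) ≤ T := by
  calc S ^ (1 / q) ≤ (T ^ q) ^ (1 / q) := Real.rpow_le_rpow hS h (by positivity)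
    _ = T := by
      rw [← Real.rpow_mul hT, mul_one_div, div_self hq.ne', Real.rpow_one]

theorem NRM_lq_le_sum {q : ℝ} (hq : 2 ≤ q) {k : ℕ} (y : Fin k → ℝ) : lq q y ≤ ∑ j, |y j| := by
  unfold lq
  refine NRM_root (by linarith)
    (Finset.sum_nonneg fun i _ => Real.rpow_nonneg (abs_nonneg _) _)
    (Finset.sum_nonneg fun i _ => abs_nonneg _) ?_
  exact NRM_super _ _ (fun i => abs_nonneg _) (by linarith)

theorem NRM_le_lq {q : ℝ} (hq : 2 ≤ q) {k : ℕ} (y : Fin k → ℝ) (j : Fin k) : |y j| ≤ lq q y := by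
  unfold lq
  have h1 : |y j| ^ q ≤ ∑ j, |y j| ^ q :=
    Finset.single_le_sum (f := fun j => |y j| ^ q)
      (fun i _ => Real.rpow_nonneg (abs_nonneg _) _) (Finset.mem_univ j)
  calc |y j| = (|y j| ^ q) ^ (1 / q) := by
        rw [← Real.rpow_mul (abs_nonneg _), mul_one_div, div_self (by linarith : q ≠ 0),
          Real.rpow_one]
    _ ≤ _ := Real.rpow_le_rpow (Real.rpow_nonneg (abs_nonneg _) _) h1
        (by apply one_div_nonneg.2; linarith)

theorem NRM_lq_sq {q : ℝ} (hq : 2 ≤ q) {k : ℕ} (y : Fin k → ℝ) :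
    lq q y ^ 2 ≤ ∑ j, y j ^ 2 := by
  have h2 : 0 ≤ ∑ j, y j ^ 2 := Finset.sum_nonneg fun i _ => sq_nonneg _
  have h1 : lq q y ≤ (∑ j, y j ^ 2) ^ ((1 : ℝ) / 2) := by
    unfold lq
    refine NRM_root (by linarith)
      (Finset.sum_nonneg fun i _ => Real.rpow_nonneg (abs_nonneg _) _)
      (Real.rpow_nonneg h2 _) ?_
    have h3 := NRM_super (Finset.univ : Finset (Fin k)) (fun j => y j ^ 2)
      (fun i => sq_nonneg _) (p := q / 2) (by linarith)
    rw [← Real.rpow_mul h2]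
    have h4 : (1 : ℝ) / 2 * q = q / 2 := by ring
    rw [h4]
    refine le_trans (le_of_eq ?_) h3
    refine Finset.sum_congr rfl fun i _ => ?_
    rw [← sq_abs, ← Real.rpow_natCast, ← Real.rpow_mul (abs_nonneg _)]
    congr 1
    push_cast
    ring
  have h3 : ((∑ j, y j ^ 2) ^ ((1 : ℝ) / 2)) ^ 2 = ∑ j, y j ^ 2 := by
    rw [← Real.rpow_natCast, ← Real.rpow_mul h2]
    norm_num
  rw [← h3]
  exact pow_le_pow_left₀ (NRM_lq_nonneg q y) h1 2

theorem NRM_lq_add {q : ℝ} (hq : 2 ≤ q) {k : ℕ} (y z : Fin k → ℝ) :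
    lq q (y + z) ≤ lq q y + lq q z := by
  unfold lq
  exact Real.Lp_add_le _ y z (by linarith)

theorem NRM_lq_smul {q : ℝ} (hq : 2 ≤ q) {k : ℕ} (c : ℝ) (y : Fin k → ℝ) :
    lq q (c • y) = |c| * lq q y := by
  unfold lq
  have h1 : ∑ j, |(c • y) j| ^ q = |c| ^ q * ∑ j, |y j| ^ q := by
    rw [Finset.mul_sum]
    refine Finset.sum_congr rfl fun i _ => ?_
    rw [Pi.smul_apply, smul_eq_mul, abs_mul, Real.mul_rpow (abs_nonneg _) (abs_nonneg _)]
  rw [h1, Real.mul_rpow (Real.rpow_nonneg (abs_nonneg _) _)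
    (Finset.sum_nonneg fun i _ => Real.rpow_nonneg (abs_nonneg _) _),
    ← Real.rpow_mul (abs_nonneg _), mul_one_div, div_self (by linarith : q ≠ 0), Real.rpow_one]

theorem sNrm : SNrm := by
  intro q hq m k
  refine ⟨⟨?_, ?_, ?_⟩, ?_, ?_, ?_⟩
  · intro x y
    unfold Nq
    rw [← Finset.sum_add_distrib]
    refine Finset.sum_le_sum fun a _ => ?_
    exact NRM_lq_add hq (fun j => x (a, j)) (fun j => y (a, j))
  · intro c x
    unfold Nq
    rw [Finset.mul_sum]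
    refine Finset.sum_congr rfl fun a _ => ?_
    exact NRM_lq_smul hq c (fun j => x (a, j))
  · intro x hx
    funext s
    obtain ⟨a, j⟩ := s
    unfold Nq at hx
    have h1 := (Finset.sum_eq_zero_iff_of_nonneg
      (fun a _ => NRM_lq_nonneg q (fun j => x (a, j)))).1 hx a (Finset.mem_univ a)
    have h2 := NRM_le_lq hq (fun j => x (a, j)) j
    rw [h1] at h2
    exact abs_eq_zero.1 (le_antisymm h2 (abs_nonneg _))
  · intro x
    unfold Nq
    refine ⟨Finset.sum_nonneg fun a _ => NRM_lq_nonneg q _, ?_⟩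
    rw [Fintype.sum_prod_type]
    exact Finset.sum_le_sum fun a _ => NRM_lq_le_sum hq _
  · intro x J
    unfold Nq
    exact Finset.sum_le_sum fun a _ => NRM_le_lq hq (fun j => x (a, j)) (J a)
  · intro y
    exact ⟨NRM_lq_nonneg q y, NRM_lq_sq hq y⟩

end Pool.PT2
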