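import Pool.Agent.H83.PT2.Avg

/-! # TYP: what type 2 gives -/

set_option autoImplicit false

open Finset

namespace Pool.PT2

theorem TYP_sg (b c : Bool) : sg (b == c) = sg b * sg c := by
  unfold sg
  cases b <;> cases c <;> simp

/-- the twist of the signs -/
def TYP_tw {m N : ℕ} (χ : Fin m → Fin N) (δ : Fin N → Bool) : (Fin m → Bool) ≃ (Fin m → Bool) where
  toFun ε := fun a => (ε a == δ (χ a))
  invFun ε := fun a => (ε a == δ (χ a))
  left_inv ε := by
    funext a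
    show ((ε a == δ (χ a)) == δ (χ a)) = ε a
    cases ε a <;> cases δ (χ a) <;> rfl
  right_inv ε := by
    funext a
    show ((ε a == δ (χ a)) == δ (χ a)) = ε a
    cases ε a <;> cases δ (χ a) <;> rfl

/-- the full sum -/
noncomputable def TYP_f {m k : ℕ} (P : Fin m × Fin k → Fin m × Fin k → ℝ) (J : Fin m → Fin k)
    (ε : Fin m → Bool) : Fin m × Fin k → ℝ := fun t => ∑ a, sg (ε a) * P t (a, J a)

theorem TYP_sum {m k N : ℕ} (P : Fin m × Fin k → Fin m × Fin k → ℝ)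
    (J : Fin m → Fin k) (χ : Fin m → Fin N) (ε : Fin m → Bool) (δ : Fin N → Bool) :
    ∑ i, sg (δ i) • cs P i (J, χ, ε) = TYP_f P J (TYP_tw χ δ ε) := by
  classical
  funext t
  rw [Finset.sum_apply]
  show ∑ i, sg (δ i) * (∑ a, if χ a = i then sg (ε a) * P t (a, J a) else 0) =
    ∑ a, sg (ε a == δ (χ a)) * P t (a, J a)
  simp_rw [Finset.mul_sum]
  rw [Finset.sum_comm]
  refine Finset.sum_congr rfl fun a _ => ?_
  rw [TYP_sg, Finset.sum_eq_single (χ a)]
  · rw [if_pos rfl]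
    ring
  · intro i _ hi
    rw [if_neg (fun h => hi h.symm), mul_zero]
  · intro h
    exact absurd (Finset.mem_univ _) h

theorem TYP_mem {m k N : ℕ} (P : Fin m × Fin k → Fin m × Fin k → ℝ)
    (E : Submodule ℝ (Fin m × Fin k → ℝ)) (hE : ∀ s, (fun t => P t s) ∈ E) (i : Fin N)
    (p : (Fin m → Fin k) × (Fin m → Fin N) × (Fin m → Bool)) : cs P i p ∈ E := by
  have h1 : cs P i p = ∑ a, (if p.2.1 a = i then sg (p.2.2 a) else 0) •
      (fun t => P t (a, p.1 a)) := by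
    funext t
    rw [Finset.sum_apply]
    unfold cs
    refine Finset.sum_congr rfl fun a _ => ?_
    rw [Pi.smul_apply, smul_eq_mul]
    split_ifs
    · rfl
    · rw [zero_mul]
  rw [h1]
  exact Submodule.sum_mem _ fun a _ => Submodule.smul_mem _ _ (hE _)

theorem TYP_type {ι : Type} {N : (ι → ℝ) → ℝ} {E : Submodule ℝ (ι → ℝ)} {T : ℝ}
    (h : Type2 N E T) {l : ℕ} (x : Fin l → ι → ℝ) (hx : ∀ i, x i ∈ E) :
    rad2 N x ≤ T ^ 2 * ∑ i, N (x i) ^ 2 := by
  have h1 := h l x hx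
  have h2 : 0 ≤ rad2 N x := avg_nonneg' fun ε => sq_nonneg _
  have h3 : 0 ≤ ∑ i, N (x i) ^ 2 := Finset.sum_nonneg fun i _ => sq_nonneg _
  calc rad2 N x = √(rad2 N x) ^ 2 := (Real.sq_sqrt h2).symm
    _ ≤ (T * √(∑ i, N (x i) ^ 2)) ^ 2 := pow_le_pow_left₀ (Real.sqrt_nonneg _) h1 2
    _ = T ^ 2 * ∑ i, N (x i) ^ 2 := by rw [mul_pow, Real.sq_sqrt h3]

theorem sTyp : STyp := by
  intro q hq m k N hk hN P E T hE hT
  have : Nonempty (Fin N) := ⟨⟨0, hN⟩⟩
  have h1 : ∀ p : (Fin m → Fin k) × (Fin m → Fin N) × (Fin m → Bool),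
      avg (fun δ : Fin N → Bool => Nq q (TYP_f P p.1 (TYP_tw p.2.1 δ p.2.2)) ^ 2) ≤
        T ^ 2 * ∑ i : Fin N, Nq q (cs P i p) ^ 2 := by
    intro p
    have h2 := TYP_type hT (fun i => cs P i p) (fun i => TYP_mem P E hE i p)
    refine le_trans (le_of_eq ?_) h2
    unfold rad2
    congr 1
    funext δ
    have h3 := TYP_sum P p.1 p.2.1 p.2.2 δ
    rw [← h3]
  have h2 := avg_mono' h1
  rw [avg_const_mul', avg_sum' Finset.univ
    (fun (i : Fin N) (p : (Fin m → Fin k) × (Fin m → Fin N) × (Fin m → Bool)) =>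
      Nq q (cs P i p) ^ 2)] at h2
  refine le_trans ?_ h2
  -- the left side
  have h3 : avg (fun p : (Fin m → Fin k) × (Fin m → Fin N) × (Fin m → Bool) =>
      avg (fun δ : Fin N → Bool => Nq q (TYP_f P p.1 (TYP_tw p.2.1 δ p.2.2)) ^ 2)) =
      avg (fun p : (Fin m → Fin k) × (Fin m → Bool) => Nq q (TYP_f P p.1 p.2) ^ 2) := by
    rw [avg_prod', avg_prod']
    congr 1
    funext J
    rw [avg_prod']
    have h4 : ∀ χ : Fin m → Fin N, avg (fun ε : Fin m → Bool =>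
        avg (fun δ : Fin N → Bool => Nq q (TYP_f P J (TYP_tw χ δ ε)) ^ 2)) =
        avg (fun ε : Fin m → Bool => Nq q (TYP_f P J ε) ^ 2) := by
      intro χ
      rw [avg_comm']
      have h5 : ∀ δ : Fin N → Bool, avg (fun ε : Fin m → Bool =>
          Nq q (TYP_f P J (TYP_tw χ δ ε)) ^ 2) =
          avg (fun ε : Fin m → Bool => Nq q (TYP_f P J ε) ^ 2) := fun δ =>
        avg_equiv' (TYP_tw χ δ) (fun ε => Nq q (TYP_f P J ε) ^ 2)
      simp_rw [h5]
      exact avg_const' _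
    simp_rw [h4]
    exact avg_const' _
  rw [h3]
  exact avg_sq_le' _

end Pool.PT2
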