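import Pool.Agent.H37.PT2.Defs

/-! # Averages -/

set_option autoImplicit false

open Finset

namespace Pool.PT2

theorem avg_mono' {α : Type} [Fintype α] {f g : α → ℝ} (h : ∀ a, f a ≤ g a) : avg f ≤ avg g := by
  unfold avg
  exact div_le_div_of_nonneg_right (Finset.sum_le_sum fun a _ => h a) (Nat.cast_nonneg _)

theorem avg_nonneg' {α : Type} [Fintype α] {f : α → ℝ} (h : ∀ a, 0 ≤ f a) : 0 ≤ avg f := by
  unfold avg
  exact div_nonneg (Finset.sum_nonneg fun a _ => h a) (Nat.cast_nonneg _)

theorem avg_const_mul' {α : Type} [Fintype α] (c : ℝ) (f : α → ℝ) :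
    avg (fun a => c * f a) = c * avg f := by
  unfold avg
  rw [← Finset.mul_sum, mul_div_assoc]

theorem avg_add' {α : Type} [Fintype α] (f g : α → ℝ) :
    avg (fun a => f a + g a) = avg f + avg g := by
  unfold avg
  rw [Finset.sum_add_distrib, add_div]

theorem avg_sum' {α ι : Type} [Fintype α] (s : Finset ι) (f : ι → α → ℝ) :
    avg (fun a => ∑ i ∈ s, f i a) = ∑ i ∈ s, avg (f i) := by
  unfold avg
  rw [Finset.sum_comm, Finset.sum_div]

theorem avg_const' {α : Type} [Fintype α] [Nonempty α] (c : ℝ) : avg (fun _ : α => c) = c := by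
  unfold avg
  rw [Finset.sum_const, Finset.card_univ, nsmul_eq_mul]
  have : (Fintype.card α : ℝ) ≠ 0 := by exact_mod_cast Fintype.card_ne_zero
  field_simp

theorem avg_prod' {α β : Type} [Fintype α] [Fintype β] (f : α × β → ℝ) :
    avg f = avg (fun a => avg (fun b => f (a, b))) := by
  unfold avg
  rw [Fintype.sum_prod_type, Fintype.card_prod, ← Finset.sum_div, div_div]
  push_cast
  rw [mul_comm (Fintype.card α : ℝ)]

theorem avg_comm' {α β : Type} [Fintype α] [Fintype β] (f : α → β → ℝ) :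
    avg (fun a => avg (fun b => f a b)) = avg (fun b => avg (fun a => f a b)) := by
  unfold avg
  rw [← Finset.sum_div, ← Finset.sum_div, Finset.sum_comm, div_div, div_div, mul_comm]

theorem avg_equiv' {α β : Type} [Fintype α] [Fintype β] (e : α ≃ β) (f : β → ℝ) :
    avg (fun a => f (e a)) = avg f := by
  unfold avg
  rw [Fintype.card_congr e, Equiv.sum_comp e f]

theorem avg_sq_le' {α : Type} [Fintype α] (f : α → ℝ) : avg f ^ 2 ≤ avg (fun a => f a ^ 2) := by
  unfold avg
  rcases isEmpty_or_nonempty α with h | h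
  · simp
  · have h1 : (0 : ℝ) < Fintype.card α := by exact_mod_cast Fintype.card_pos
    have h2 := sq_sum_le_card_mul_sum_sq (s := (Finset.univ : Finset α)) (f := f)
    rw [Finset.card_univ] at h2
    rw [div_pow, div_le_div_iff₀ (by positivity) h1]
    calc (∑ a, f a) ^ 2 * (Fintype.card α : ℝ) ≤
        ((Fintype.card α : ℝ) * ∑ a, f a ^ 2) * (Fintype.card α : ℝ) :=
          mul_le_mul_of_nonneg_right h2 h1.le
      _ = (∑ a, f a ^ 2) * (Fintype.card α : ℝ) ^ 2 := by ring

theorem avg_sqrt_le' {α : Type} [Fintype α] (f : α → ℝ) (hf : ∀ a, 0 ≤ f a) :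
    avg (fun a => √(f a)) ≤ √(avg f) := by
  refine Real.le_sqrt_of_sq_le ?_
  refine (avg_sq_le' _).trans (le_of_eq ?_)
  congr 1
  funext a
  exact Real.sq_sqrt (hf a)

theorem avg_mid' {α β γ : Type} [Fintype α] [Fintype β] [Fintype γ] [Nonempty α] [Nonempty γ]
    (F : β → ℝ) : avg (fun p : α × β × γ => F p.2.1) = avg F := by
  rw [avg_prod']
  show avg (fun _ : α => avg (fun b : β × γ => F b.1)) = avg F
  rw [avg_const', avg_prod']
  show avg (fun b : β => avg (fun _ : γ => F b)) = avg F
  congr 1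
  funext b
  exact avg_const' _

/-- the product formula -/
theorem avg_pi' {m N : ℕ} (f : Fin m → Fin N → ℝ) :
    avg (fun χ : Fin m → Fin N => ∏ c, f c (χ c)) = ∏ c, avg (f c) := by
  unfold avg
  rw [Finset.prod_div_distrib]
  congr 1
  · rw [Finset.prod_univ_sum, Fintype.piFinset_univ]
  · rw [Finset.prod_const]
    simp

end Pool.PT2
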