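import Pool.Agent.H83.PT2.Avg

/-! # UPL: the large part -/

set_option autoImplicit false

open Finset

namespace Pool.PT2

theorem UPL_ind {m N : ℕ} (hN : 1 ≤ N) (i : Fin N) (a b : Fin m) :
    avg (fun χ : Fin m → Fin N => (if χ a = i then (1 : ℝ) else 0) *
      (if χ b = i then (1 : ℝ) else 0)) = if a = b then 1 / (N : ℝ) else 1 / (N : ℝ) ^ 2 := by
  classical
  have hN' : (N : ℝ) ≠ 0 := by
    have : N ≠ 0 := by omega
    exact_mod_cast this
  have hne : Nonempty (Fin N) := ⟨i⟩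
  have h1 : avg (fun j : Fin N => if j = i then (1 : ℝ) else 0) = 1 / N := by
    unfold avg
    rw [Finset.sum_ite_eq' Finset.univ i, if_pos (Finset.mem_univ i), Fintype.card_fin]
  let f : Fin m → Fin N → ℝ := fun c j => if c = a ∨ c = b then (if j = i then 1 else 0) else 1
  have h2 : ∀ χ : Fin m → Fin N, (if χ a = i then (1 : ℝ) else 0) *
      (if χ b = i then (1 : ℝ) else 0) = ∏ c, f c (χ c) := by
    intro χ
    by_cases ha : χ a = i
    · by_cases hb : χ b = i
      · rw [if_pos ha, if_pos hb, mul_one]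
        symm
        refine Finset.prod_eq_one fun c _ => ?_
        simp only [f]
        split_ifs with h3 h4
        · rfl
        · rcases h3 with h3 | h3
          · exact absurd (h3 ▸ ha) h4
          · exact absurd (h3 ▸ hb) h4
        · rfl
      · rw [if_neg hb, mul_zero]
        symm
        refine Finset.prod_eq_zero (Finset.mem_univ b) ?_
        show (if b = a ∨ b = b then (if χ b = i then (1 : ℝ) else 0) else 1) = 0
        rw [if_pos (Or.inr rfl), if_neg hb]
    · rw [if_neg ha, zero_mul]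
      symm
      refine Finset.prod_eq_zero (Finset.mem_univ a) ?_
      show (if a = a ∨ a = b then (if χ a = i then (1 : ℝ) else 0) else 1) = 0
      rw [if_pos (Or.inl rfl), if_neg ha]
  have h3 : ∀ c, avg (f c) = if c = a ∨ c = b then 1 / (N : ℝ) else 1 := by
    intro c
    by_cases hc : c = a ∨ c = b
    · rw [if_pos hc, ← h1]
      congr 1
      funext j
      simp only [f]
      rw [if_pos hc]
    · rw [if_neg hc]
      have : f c = fun _ => 1 := by
        funext j
        simp only [f]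
        rw [if_neg hc]
      rw [this, avg_const']
  have h4 : avg (fun χ : Fin m → Fin N => (if χ a = i then (1 : ℝ) else 0) *
      (if χ b = i then (1 : ℝ) else 0)) = ∏ c : Fin m, (if c = a ∨ c = b then 1 / (N : ℝ) else 1) := by
    have : (fun χ : Fin m → Fin N => (if χ a = i then (1 : ℝ) else 0) *
      (if χ b = i then (1 : ℝ) else 0)) = fun χ => ∏ c, f c (χ c) := funext h2
    rw [this, avg_pi']
    exact Finset.prod_congr rfl fun c _ => h3 c
  rw [h4, Finset.prod_ite, Finset.prod_const_one, mul_one, Finset.prod_const]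
  have h5 : Finset.univ.filter (fun c : Fin m => c = a ∨ c = b) = {a, b} := by
    ext c
    simp
  rw [h5]
  by_cases hab : a = b
  · subst hab
    rw [if_pos rfl, Finset.pair_eq_singleton, Finset.card_singleton, pow_one]
  · rw [if_neg hab, Finset.card_pair hab, one_div, one_div, inv_pow]

theorem UPL_card {m k N : ℕ} (hk : 1 ≤ k) (hN : 1 ≤ N) (i : Fin N) :
    avg (fun p : (Fin m → Fin k) × (Fin m → Fin N) × (Fin m → Bool) =>
      (∑ a, if p.2.1 a = i then (1 : ℝ) else 0) ^ 2) ≤ m / N + m ^ 2 / N ^ 2 := by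
  classical
  have : Nonempty (Fin m → Fin k) := ⟨fun _ => ⟨0, hk⟩⟩
  have h1 : avg (fun p : (Fin m → Fin k) × (Fin m → Fin N) × (Fin m → Bool) =>
      (∑ a, if p.2.1 a = i then (1 : ℝ) else 0) ^ 2) =
      avg (fun χ : Fin m → Fin N => (∑ a, if χ a = i then (1 : ℝ) else 0) ^ 2) := by
    exact avg_mid' (fun χ : Fin m → Fin N => (∑ a, if χ a = i then (1 : ℝ) else 0) ^ 2)
  rw [h1]
  have h2 : (fun χ : Fin m → Fin N => (∑ a, if χ a = i then (1 : ℝ) else 0) ^ 2) =
      fun χ => ∑ a, ∑ b, (if χ a = i then (1 : ℝ) else 0) * (if χ b = i then (1 : ℝ) else 0) := by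
    funext χ
    rw [sq, Finset.sum_mul_sum]
  have h3 : avg (fun χ : Fin m → Fin N => ∑ a, ∑ b, (if χ a = i then (1 : ℝ) else 0) *
      (if χ b = i then (1 : ℝ) else 0)) =
      ∑ a : Fin m, ∑ b : Fin m, if a = b then 1 / (N : ℝ) else 1 / (N : ℝ) ^ 2 := by
    rw [avg_sum' Finset.univ (fun a (χ : Fin m → Fin N) =>
      ∑ b, (if χ a = i then (1 : ℝ) else 0) * (if χ b = i then (1 : ℝ) else 0))]
    refine Finset.sum_congr rfl fun a _ => ?_
    rw [avg_sum' Finset.univ (fun b (χ : Fin m → Fin N) =>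
      (if χ a = i then (1 : ℝ) else 0) * (if χ b = i then (1 : ℝ) else 0))]
    exact Finset.sum_congr rfl fun b _ => UPL_ind hN i a b
  rw [h2, h3]
  have h4 : ∀ a : Fin m, (∑ b : Fin m, if a = b then 1 / (N : ℝ) else 1 / (N : ℝ) ^ 2) ≤
      1 / N + m / (N : ℝ) ^ 2 := by
    intro a
    have h5 : ∀ b : Fin m, (if a = b then 1 / (N : ℝ) else 1 / (N : ℝ) ^ 2) ≤
        (if a = b then 1 / (N : ℝ) else 0) + 1 / (N : ℝ) ^ 2 := by
      intro b
      split_ifs
      · have : (0 : ℝ) ≤ 1 / (N : ℝ) ^ 2 := by positivity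
        linarith
      · linarith
    refine (Finset.sum_le_sum fun b _ => h5 b).trans (le_of_eq ?_)
    rw [Finset.sum_add_distrib, Finset.sum_ite_eq, if_pos (Finset.mem_univ a), Finset.sum_const,
      Finset.card_univ, Fintype.card_fin, nsmul_eq_mul]
    ring
  refine (Finset.sum_le_sum fun a _ => h4 a).trans (le_of_eq ?_)
  rw [Finset.sum_const, Finset.card_univ, Fintype.card_fin, nsmul_eq_mul]
  ring

theorem UPL_entry {x β n : ℝ} (hβ : 0 < β) (hn : 0 < n) (h : x = 0 ∨ β ^ 2 / n ≤ x ^ 2) :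
    |x| ≤ x ^ 2 * (√n / β) := by
  rcases h with h | h
  · subst h
    simp
  · have h1 : 0 < √n := Real.sqrt_pos.2 hn
    have h2 : (β / √n) ^ 2 ≤ |x| ^ 2 := by
      rw [div_pow, Real.sq_sqrt hn.le, sq_abs]
      exact h
    have h3 : β / √n ≤ |x| := (pow_le_pow_iff_left₀ (by positivity) (abs_nonneg x) two_ne_zero).1 h2
    have h4 : 1 ≤ |x| * (√n / β) := by
      rw [div_le_iff₀ h1] at h3
      rw [← mul_div_assoc, le_div_iff₀ hβ, one_mul]
      exact h3
    calc |x| = |x| * 1 := (mul_one _).symm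
      _ ≤ |x| * (|x| * (√n / β)) := mul_le_mul_of_nonneg_left h4 (abs_nonneg x)
      _ = x ^ 2 * (√n / β) := by rw [← sq_abs x]; ring

theorem UPL_point (hNrm : SNrm) {q : ℝ} (hq : 2 ≤ q) {m k N : ℕ} (hN : 1 ≤ N)
    (Q : Fin m × Fin k → Fin m × Fin k → ℝ) (i : Fin N) {β : ℝ} (hβ : 0 < β)
    (h1 : ∀ t s, Q t s = 0 ∨ β ^ 2 / N ≤ Q t s ^ 2) (h2 : ∀ s, ∑ t, Q t s ^ 2 ≤ 1)
    (p : (Fin m → Fin k) × (Fin m → Fin N) × (Fin m → Bool)) :
    Nq q (cs Q i p) ^ 2 ≤ (N / β ^ 2) * (∑ a, if p.2.1 a = i then (1 : ℝ) else 0) ^ 2 := by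
  obtain ⟨-, hb, -, -⟩ := hNrm q hq m k
  have hn : (0 : ℝ) < N := by
    have : 0 < N := by omega
    exact_mod_cast this
  have h3 : ∀ s, ∑ t, |Q t s| ≤ √N / β := by
    intro s
    calc ∑ t, |Q t s| ≤ ∑ t, Q t s ^ 2 * (√N / β) :=
          Finset.sum_le_sum fun t _ => UPL_entry hβ hn (h1 t s)
      _ = (∑ t, Q t s ^ 2) * (√N / β) := by rw [Finset.sum_mul]
      _ ≤ 1 * (√N / β) := mul_le_mul_of_nonneg_right (h2 s) (by positivity)
      _ = √N / β := one_mul _
  have h4 : Nq q (cs Q i p) ≤ (√N / β) * ∑ a, if p.2.1 a = i then (1 : ℝ) else 0 := by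
    refine (hb (cs Q i p)).2.trans ?_
    calc ∑ t, |cs Q i p t| ≤ ∑ t, ∑ a, if p.2.1 a = i then |Q t (a, p.1 a)| else 0 := by
          refine Finset.sum_le_sum fun t _ => ?_
          unfold cs
          refine (Finset.abs_sum_le_sum_abs _ _).trans (Finset.sum_le_sum fun a _ => ?_)
          split_ifs
          · rw [abs_mul]
            have : |sg (p.2.2 a)| = 1 := by
              unfold sg
              split_ifs <;> simp
            rw [this, one_mul]
          · simp
      _ = ∑ a, if p.2.1 a = i then ∑ t, |Q t (a, p.1 a)| else 0 := by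
          rw [Finset.sum_comm]
          refine Finset.sum_congr rfl fun a _ => ?_
          split_ifs
          · rfl
          · simp
      _ ≤ ∑ a, if p.2.1 a = i then (√N / β) else 0 := by
          refine Finset.sum_le_sum fun a _ => ?_
          split_ifs
          · exact h3 _
          · exact le_rfl
      _ = (√N / β) * ∑ a, if p.2.1 a = i then (1 : ℝ) else 0 := by
          rw [Finset.mul_sum]
          refine Finset.sum_congr rfl fun a _ => ?_
          split_ifs <;> simp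
  calc Nq q (cs Q i p) ^ 2 ≤ ((√N / β) * ∑ a, if p.2.1 a = i then (1 : ℝ) else 0) ^ 2 :=
        pow_le_pow_left₀ (hb (cs Q i p)).1 h4 2
    _ = (N / β ^ 2) * (∑ a, if p.2.1 a = i then (1 : ℝ) else 0) ^ 2 := by
        rw [mul_pow, div_pow, Real.sq_sqrt hn.le]

theorem sUpl (hNrm : SNrm) : SUpl := by
  intro q hq m k N hk hN hNm Q i β hβ h1 h2
  have hn : (0 : ℝ) < N := by
    have : 0 < N := by omega
    exact_mod_cast this
  have hnm : (N : ℝ) ≤ m := by exact_mod_cast hNm
  have h3 : avg (fun p => Nq q (cs Q i p) ^ 2) ≤ (N / β ^ 2) * (m / N + m ^ 2 / N ^ 2) := by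
    refine (avg_mono' (UPL_point hNrm hq hN Q i hβ h1 h2)).trans ?_
    rw [avg_const_mul']
    exact mul_le_mul_of_nonneg_left (UPL_card hk hN i) (by positivity)
  have h4 : (m : ℝ) / N ≤ m ^ 2 / N ^ 2 := by
    rw [div_le_div_iff₀ hn (by positivity)]
    have h5 : (0 : ℝ) ≤ m := Nat.cast_nonneg m
    nlinarith [mul_le_mul_of_nonneg_left hnm (mul_nonneg h5 hn.le)]
  calc (N : ℝ) * avg (fun p => Nq q (cs Q i p) ^ 2) ≤
      N * ((N / β ^ 2) * (m / N + m ^ 2 / N ^ 2)) := mul_le_mul_of_nonneg_left h3 hn.le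
    _ ≤ N * ((N / β ^ 2) * (m ^ 2 / N ^ 2 + m ^ 2 / N ^ 2)) := by
        apply mul_le_mul_of_nonneg_left _ hn.le
        apply mul_le_mul_of_nonneg_left _ (by positivity)
        linarith
    _ = (m : ℝ) ^ 2 * (2 / β ^ 2) := by
        field_simp
        ring

end Pool.PT2
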