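import Pool.Agent.H83.PT2.Avg

/-! # UPS: the small part -/

set_option autoImplicit false

open Finset

namespace Pool.PT2

theorem UPS_block (hMm2 : SMm2) (hMm4 : SMm4) {q s C : ℝ} (hs : 0 < s) (hC : 0 < C)
    (hint : ∀ (k : ℕ) (y : Fin k → ℝ), lq q y ^ 2 ≤ s * (∑ j, y j ^ 2) + C * √(∑ j, y j ^ 4))
    {m k N : ℕ} (hk : 1 ≤ k) (hN : 1 ≤ N) (Q : Fin m × Fin k → Fin m × Fin k → ℝ) (i : Fin N)
    {α : ℝ} (h1 : ∀ t s, Q t s ^ 2 ≤ α ^ 2 / N)
    (h2 : ∀ t, ∑ s, Q t s ^ 2 ≤ 1) (a : Fin m) :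
    avg (fun p => lq q (fun j => cs Q i p (a, j)) ^ 2) ≤ (s + C * √(3 / k + α ^ 2)) / N := by
  have hn : (0 : ℝ) < N := by
    have : 0 < N := by omega
    exact_mod_cast this
  have hk' : (0 : ℝ) < k := by
    have : 0 < k := by omega
    exact_mod_cast this
  have e1 : avg (fun p => ∑ j, cs Q i p (a, j) ^ 2) ≤ 1 / N := by
    rw [avg_sum' Finset.univ (fun j p => cs Q i p (a, j) ^ 2)]
    have : ∀ j : Fin k, avg (fun p => cs Q i p (a, j) ^ 2) ≤ 1 / (N * k) := by
      intro j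
      rw [hMm2 m k N hk hN Q i (a, j)]
      exact div_le_div_of_nonneg_right (h2 _) (by positivity)
    refine (Finset.sum_le_sum fun j _ => this j).trans (le_of_eq ?_)
    rw [Finset.sum_const, Finset.card_univ, Fintype.card_fin, nsmul_eq_mul]
    field_simp
  have e2 : avg (fun p => ∑ j, cs Q i p (a, j) ^ 4) ≤ (3 / k + α ^ 2) / N ^ 2 := by
    rw [avg_sum' Finset.univ (fun j p => cs Q i p (a, j) ^ 4)]
    refine (Finset.sum_le_sum fun j _ =>
      hMm4 m k N hk hN Q i (a, j) _ (h1 (a, j)) (h2 _)).trans (le_of_eq ?_)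
    rw [Finset.sum_const, Finset.card_univ, Fintype.card_fin, nsmul_eq_mul]
    field_simp
  have e3 : avg (fun p => √(∑ j, cs Q i p (a, j) ^ 4)) ≤ √(3 / k + α ^ 2) / N := by
    refine (avg_sqrt_le' _ fun p => Finset.sum_nonneg fun j _ => by positivity).trans ?_
    refine (Real.sqrt_le_sqrt e2).trans (le_of_eq ?_)
    rw [Real.sqrt_div' _ (by positivity), Real.sqrt_sq hn.le]
  calc avg (fun p => lq q (fun j => cs Q i p (a, j)) ^ 2) ≤
      avg (fun p => s * (∑ j, cs Q i p (a, j) ^ 2) + C * √(∑ j, cs Q i p (a, j) ^ 4)) :=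
        avg_mono' fun p => hint k _
    _ = s * avg (fun p => ∑ j, cs Q i p (a, j) ^ 2) +
        C * avg (fun p => √(∑ j, cs Q i p (a, j) ^ 4)) := by
        rw [avg_add', avg_const_mul', avg_const_mul']
    _ ≤ s * (1 / N) + C * (√(3 / k + α ^ 2) / N) :=
        add_le_add (mul_le_mul_of_nonneg_left e1 hs.le) (mul_le_mul_of_nonneg_left e3 hC.le)
    _ = (s + C * √(3 / k + α ^ 2)) / N := by ring

theorem sUps (hNrm : SNrm) (hMm2 : SMm2) (hMm4 : SMm4) (hInt : SInt) : SUps := by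
  intro q s hq hs
  obtain ⟨C, hC, hint⟩ := hInt q s hq hs
  refine ⟨C, hC, fun m k N hk hN Q i α _ h1 h2 => ?_⟩
  have hn : (0 : ℝ) < N := by
    have : 0 < N := by omega
    exact_mod_cast this
  have h3 : ∀ p, Nq q (cs Q i p) ^ 2 ≤ m * ∑ a, lq q (fun j => cs Q i p (a, j)) ^ 2 := by
    intro p
    unfold Nq
    have := sq_sum_le_card_mul_sum_sq (s := (Finset.univ : Finset (Fin m)))
      (f := fun a => lq q (fun j => cs Q i p (a, j)))
    rwa [Finset.card_univ, Fintype.card_fin] at this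
  calc (N : ℝ) * avg (fun p => Nq q (cs Q i p) ^ 2) ≤
      N * avg (fun p => m * ∑ a, lq q (fun j => cs Q i p (a, j)) ^ 2) :=
        mul_le_mul_of_nonneg_left (avg_mono' h3) hn.le
    _ = N * (m * ∑ a, avg (fun p => lq q (fun j => cs Q i p (a, j)) ^ 2)) := by
        rw [avg_const_mul', avg_sum' Finset.univ
          (fun a p => lq q (fun j => cs Q i p (a, j)) ^ 2)]
    _ ≤ N * (m * ∑ _a : Fin m, (s + C * √(3 / k + α ^ 2)) / N) := by
        apply mul_le_mul_of_nonneg_left _ hn.le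
        apply mul_le_mul_of_nonneg_left _ (Nat.cast_nonneg m)
        exact Finset.sum_le_sum fun a _ => UPS_block hMm2 hMm4 hs hC hint hk hN Q i h1 h2 a
    _ = (m : ℝ) ^ 2 * (s + C * √(3 / k + α ^ 2)) := by
        rw [Finset.sum_const, Finset.card_univ, Fintype.card_fin, nsmul_eq_mul]
        field_simp

end Pool.PT2
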